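import Mathlib
import Pool.Agent.U251.LD.Stm
import Pool.Agent.R461.GC.G8

set_option autoImplicit false

/-! Package MS of project LD: mean square approximation of the error term of the divisor problem by the
truncated Voronoi series, also at shifted arguments (port of the file `Pool.Agent.U170.LB.MS` of
helper170). -/

namespace Pool.Agent.U94.LD

open MeasureTheory Filter Topology
open Pool.Agent.H383.Gen (U)
open Pool.Agent.H387R2.Vor (Ed Del Dsum)
open Pool.Agent.H383.Div (E2 ad ad_zero wd wd_Wt vor)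
open Pool.Agent.H452R2.Win (E2_SandW ad_Bdw2)
open Pool.Agent.R461.GC (Adm ch tail_conv E2_meas E2_bdd)
open Pool.Agent.U581.LB (AdmL)
open Pool.Agent.U251.LD (dv cd UD Pd Dl)

lemma cd_eq (n : ℕ) : cd n = ad n := by
  unfold cd ad dv Pool.Agent.H387R2.Vor.dv
  ring

lemma UD_eq (L : ℕ) (R : ℝ) : UD (L ^ 2) R = U ad (Real.pi / 4) R L := by
  unfold UD U
  refine Finset.sum_congr rfl fun n _ => ?_
  rw [cd_eq]

lemma Pd_eq {R : ℝ} (hR : 0 < R) : Pd R = √R * E2 R := by
  have h1 : Dl ((R / 2) ^ 2) = Del ((R / 2) ^ 2) := by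
    unfold Dl Del Dsum Pool.Agent.H387R2.Vor.dv
    ring
  have h3 : √(R / 2) ≠ 0 := (Real.sqrt_pos.2 (by linarith)).ne'
  have h4 : √R = √2 * √(R / 2) := by
    rw [← Real.sqrt_mul (by norm_num)]
    congr 1
    ring
  unfold Pd E2 Ed
  rw [h1, h4]
  field_simp

/-- the bound of the truncated series -/
noncomputable def SU (N : ℕ) : ℝ := ∑ n ∈ Finset.Icc 1 N, |cd n|

lemma SU_nonneg (N : ℕ) : 0 ≤ SU N := Finset.sum_nonneg fun _ _ => abs_nonneg _

lemma UD_le (N : ℕ) (R : ℝ) : |UD N R| ≤ SU N := by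
  unfold UD SU
  refine (Finset.abs_sum_le_sum_abs _ _).trans (Finset.sum_le_sum fun n _ => ?_)
  rw [abs_mul]
  exact mul_le_of_le_one_right (abs_nonneg _) (Real.abs_cos_le_one _)

lemma UD_cont (N : ℕ) : Continuous (UD N) := by
  unfold UD
  fun_prop

/-- shifting an admissible measure -/
lemma adm_shift {c₁ c₂ K s T h : ℝ} (hh : 0 ≤ h) (hT1 : 1 ≤ T) (hTh : h ≤ T) {μ : Measure ℝ}
    (hμ : AdmL c₁ c₂ K s T μ) :
    Adm c₁ (max c₁ c₂ + 1) |K| (min s (2 / 5)) T (μ.map fun x => x + h / T) := by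
  have hT0 : 0 < T := by linarith
  have hprob := hμ.prob
  have hq0 : 0 ≤ h / T := div_nonneg hh hT0.le
  have hq1 : h / T ≤ 1 := (div_le_one hT0).2 hTh
  have hm : Measurable fun x : ℝ => x + h / T := by fun_prop
  refine ⟨Measure.isProbabilityMeasure_map hm.aemeasurable, ?_, fun t ht htT => ?_⟩
  · rw [ae_map_iff hm.aemeasurable (by
      exact (measurableSet_le measurable_const measurable_id).inter
        (measurableSet_le measurable_id measurable_const))]
    filter_upwards [hμ.supp] with x hx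
    refine ⟨by linarith [hx.1], ?_⟩
    have := le_max_right c₁ c₂
    linarith [hx.2]
  · have ht1 : 1 ≤ |t| := le_trans (Real.one_le_rpow hT1 (by norm_num)) ht
    have e1 : ∫ x, ch t x ∂(μ.map fun x => x + h / T) = ch t (h / T) * ∫ x, ch t x ∂μ := by
      rw [integral_map hm.aemeasurable (by
        have : Continuous (ch t) := by unfold ch; fun_prop
        exact this.aestronglyMeasurable), ← integral_const_mul]
      refine integral_congr_ae (Eventually.of_forall fun x => ?_)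
      simp only [ch]
      rw [← Complex.exp_add]
      congr 1
      push_cast
      ring
    rw [e1, norm_mul, Pool.Agent.R461.GC.norm_ch, one_mul]
    have e2 : ‖∫ x, ch t x ∂μ‖ ≤ K * |t| ^ (-s) := hμ.dec t ht htT
    refine e2.trans ?_
    have : -s ≤ -(min s (2 / 5)) := neg_le_neg (min_le_left _ _)
    exact mul_le_mul (le_abs_self K) (Real.rpow_le_rpow_of_exponent_le ht1 this) (by positivity)
      (abs_nonneg K)

lemma sqrt_ratio {a h : ℝ} (ha : 0 < a) (hh : 0 ≤ h) :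
    |√(a + h) / √a - 1| ≤ h / a := by
  have hsa : 0 < √a := Real.sqrt_pos.2 ha
  have h1 : √(a + h) / √a = √(1 + h / a) := by
    rw [← Real.sqrt_div' _ ha.le]
    congr 1
    field_simp
  have hq : 0 ≤ h / a := by positivity
  rw [h1]
  have h2 : 1 ≤ √(1 + h / a) := by
    rw [Real.one_le_sqrt]; linarith
  have h3 : √(1 + h / a) ≤ 1 + h / a := by
    rw [Real.sqrt_le_left (by linarith)]
    nlinarith
  rw [abs_of_nonneg (by linarith)]
  linarith

theorem t_MS : Pool.Agent.U251.LD.S_MS := by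
  intro c₁ c₂ K s hc₁ hs h hh η hη
  have hs1 : 1 / 3 < min s (2 / 5) := lt_min hs (by norm_num)
  obtain ⟨M₀, hM₀⟩ := tail_conv (c₁ := c₁) (c₂ := max c₁ c₂ + 1) (K := |K|) (s := min s (2 / 5))
    ad_Bdw2 ad_zero wd_Wt (E2_SandW vor) hc₁ (by linarith [le_max_left c₁ c₂]) (abs_nonneg K) hs1
    (min_le_right _ _) (η / 6) (by linarith)
  refine ⟨M₀, fun L hL => ?_⟩
  obtain ⟨T₀, hT₀⟩ := hM₀ L hL
  -- the threshold
  obtain ⟨B, hB⟩ : ∃ B : ℝ, B = SU (L ^ 2) := ⟨_, rfl⟩
  have hB0 : 0 ≤ B := by rw [hB]; exact SU_nonneg _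
  have hlim : Tendsto (fun T : ℝ => h / (T * c₁)) atTop (𝓝 0) := by
    have h1 : Tendsto (fun T : ℝ => T * c₁) atTop atTop := tendsto_id.atTop_mul_const hc₁
    exact h1.const_div_atTop h
  have hlim2 : Tendsto (fun T : ℝ => 4 * (h / (T * c₁)) ^ 2 * B ^ 2) atTop (𝓝 0) := by
    have := ((hlim.pow 2).const_mul 4).mul_const (B ^ 2)
    simpa using this
  obtain ⟨T₁, hT₁⟩ := Filter.eventually_atTop.1
    ((hlim.eventually (gt_mem_nhds (show (0 : ℝ) < 1 / 2 by norm_num))).and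
      (hlim2.eventually (gt_mem_nhds (show 0 < η / 2 by linarith))))
  refine ⟨max (max T₀ T₁) (max 1 h), fun T hT μ hμ => ?_⟩
  have hTT₀ : T₀ ≤ T := le_trans (le_trans (le_max_left _ _) (le_max_left _ _)) hT
  have hTT₁ : T₁ ≤ T := le_trans (le_trans (le_max_right _ _) (le_max_left _ _)) hT
  have hT1 : 1 ≤ T := le_trans (le_trans (le_max_left _ _) (le_max_right _ _)) hT
  have hTh : h ≤ T := le_trans (le_trans (le_max_right _ _) (le_max_right _ _)) hT
  have hT0 : 0 < T := by linarith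
  obtain ⟨hδ1, hδ2⟩ := hT₁ T hTT₁
  have hprob := hμ.prob
  have hadm := adm_shift hh hT1 hTh hμ
  have hmain := hT₀ T hTT₀ _ hadm
  have hm : Measurable fun x : ℝ => x + h / T := by fun_prop
  have hUc : Continuous fun R : ℝ => U ad (Real.pi / 4) R L := by
    unfold U
    fun_prop
  -- the mean square at shifted radii
  have hshift : ∫ x, (E2 (T * x + h) - UD (L ^ 2) (T * x + h)) ^ 2 ∂μ ≤ η / 6 := by
    rw [integral_map hm.aemeasurable (by
      have h1 : Measurable fun x : ℝ => (E2 (T * x) - U ad (Real.pi / 4) (T * x) L) ^ 2 := by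
        have e1 : Measurable fun x : ℝ => E2 (T * x) := E2_meas.comp (by fun_prop)
        have e2 : Measurable fun x : ℝ => U ad (Real.pi / 4) (T * x) L :=
          hUc.measurable.comp (by fun_prop)
        exact (e1.sub e2).pow_const 2
      exact h1.aestronglyMeasurable)] at hmain
    refine le_trans (le_of_eq (integral_congr_ae (Eventually.of_forall fun x => ?_))) hmain
    have e : T * (x + h / T) = T * x + h := by field_simp
    simp only [e, UD_eq]
  -- integrability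
  obtain ⟨C, hC⟩ := E2_bdd (T * c₁) (T * c₂ + h) (by positivity)
  have hEm : Measurable fun x : ℝ => E2 (T * x + h) := E2_meas.comp (by fun_prop)
  have hUm : Measurable fun x : ℝ => UD (L ^ 2) (T * x + h) :=
    (UD_cont _).measurable.comp (by fun_prop)
  have hint : Integrable (fun x => (E2 (T * x + h) - UD (L ^ 2) (T * x + h)) ^ 2) μ := by
    refine Integrable.of_bound ((hEm.sub hUm).pow_const 2).aestronglyMeasurable ((C + B) ^ 2) ?_
    filter_upwards [hμ.supp] with x hx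
    have h1 := hC (T * x + h) (by nlinarith [hx.1]) (by nlinarith [hx.2])
    have h2 := UD_le (L ^ 2) (T * x + h)
    rw [← hB] at h2
    rw [Real.norm_eq_abs, abs_pow, sq_abs]
    have h3 : |E2 (T * x + h) - UD (L ^ 2) (T * x + h)| ≤ C + B :=
      (abs_sub _ _).trans (add_le_add h1 h2)
    exact sq_le_sq' (by linarith [(abs_le.1 h3).1]) (abs_le.1 h3).2
  have hbound : ∀ᵐ x ∂μ, (Pd (T * x + h) / √(T * x) - UD (L ^ 2) (T * x + h)) ^ 2 ≤
      3 * (E2 (T * x + h) - UD (L ^ 2) (T * x + h)) ^ 2 + η / 2 := by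
    filter_upwards [hμ.supp] with x hx
    have hx0 : 0 < x := lt_of_lt_of_le hc₁ hx.1
    have hTx : 0 < T * x := by positivity
    have hR : 0 < T * x + h := by linarith
    have hs0 : 0 < √(T * x) := Real.sqrt_pos.2 hTx
    have hq := sqrt_ratio hTx hh
    have hq2 : h / (T * x) ≤ h / (T * c₁) :=
      div_le_div_of_nonneg_left hh (by positivity) (by nlinarith [hx.1])
    obtain ⟨α, hα⟩ : ∃ α : ℝ, α = √(T * x + h) / √(T * x) - 1 := ⟨_, rfl⟩
    obtain ⟨δ, hδ⟩ : ∃ δ : ℝ, δ = h / (T * c₁) := ⟨_, rfl⟩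
    have hδ0 : 0 ≤ δ := by rw [hδ]; positivity
    rw [← hδ] at hq2 hδ1 hδ2
    have hαδ : |α| ≤ δ := by rw [hα]; exact hq.trans hq2
    have hα2 : α ^ 2 ≤ δ ^ 2 := by
      rw [← sq_abs α]
      exact pow_le_pow_left₀ (abs_nonneg _) hαδ 2
    have e1 : Pd (T * x + h) / √(T * x) = (1 + α) * E2 (T * x + h) := by
      rw [Pd_eq hR, hα]
      ring
    rw [e1]
    obtain ⟨E, hE⟩ : ∃ E : ℝ, E = E2 (T * x + h) := ⟨_, rfl⟩
    obtain ⟨V, hV⟩ : ∃ V : ℝ, V = UD (L ^ 2) (T * x + h) := ⟨_, rfl⟩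
    have hVB : V ^ 2 ≤ B ^ 2 := by
      have := UD_le (L ^ 2) (T * x + h)
      rw [← hB, ← hV] at this
      rw [← sq_abs V]
      exact pow_le_pow_left₀ (abs_nonneg _) this 2
    rw [← hE, ← hV]
    have k1 : ((1 + α) * E - V) ^ 2 ≤ 2 * (E - V) ^ 2 + 2 * (α ^ 2 * E ^ 2) := by
      nlinarith [sq_nonneg ((E - V) - α * E)]
    have k2 : E ^ 2 ≤ 2 * (E - V) ^ 2 + 2 * V ^ 2 := by
      nlinarith [sq_nonneg (E - 2 * V)]
    have k3 : α ^ 2 * E ^ 2 ≤ δ ^ 2 * (2 * (E - V) ^ 2 + 2 * B ^ 2) := by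
      refine mul_le_mul hα2 (by linarith) (sq_nonneg _) (sq_nonneg _)
    have k4 : δ ^ 2 ≤ 1 / 4 := by
      have := mul_self_le_mul_self hδ0 hδ1.le
      rw [← sq] at this
      linarith
    have k5 : δ ^ 2 * (E - V) ^ 2 ≤ 1 / 4 * (E - V) ^ 2 := mul_le_mul_of_nonneg_right k4 (sq_nonneg _)
    have k6 : δ ^ 2 * (2 * (E - V) ^ 2 + 2 * B ^ 2) = 2 * (δ ^ 2 * (E - V) ^ 2) + (4 * δ ^ 2 * B ^ 2) / 2 := by
      ring
    linarith
  calc ∫ x, (Pd (T * x + h) / √(T * x) - UD (L ^ 2) (T * x + h)) ^ 2 ∂μ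
      ≤ ∫ x, (3 * (E2 (T * x + h) - UD (L ^ 2) (T * x + h)) ^ 2 + η / 2) ∂μ :=
        integral_mono_of_nonneg (Eventually.of_forall fun x => sq_nonneg _)
          ((hint.const_mul 3).add (integrable_const _)) hbound
    _ = 3 * ∫ x, (E2 (T * x + h) - UD (L ^ 2) (T * x + h)) ^ 2 ∂μ + η / 2 := by
        rw [integral_add (hint.const_mul 3) (integrable_const _), integral_const_mul]
        simp
    _ ≤ η := by linarith

end Pool.Agent.U94.LD
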